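import Mathlib

namespace Pool.Agent.Results.MP_d015f1_co.Pass

/-- some forbidden word is written on consecutive cells -/
def Appears {A : Type} (F : List (List A)) (s : ℤ → Option A) : Prop :=
  ∃ w ∈ F, ∃ j : ℤ, ∀ k : Fin w.length, s (j + (k : ℕ)) = some (w.get k)

/-- a move: colour an uncoloured cell, or pass if passing is allowed -/
def Move {A : Type} (pass : Bool) (s s' : ℤ → Option A) : Prop :=
  (pass = true ∧ s' = s) ∨ ∃ i a, s i = none ∧ s' = Function.update s i (some a)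

/-- positions winning for player A; the flag is `true` when A is to move -/
inductive WinA {A : Type} (F : List (List A)) (pass : Bool) : (ℤ → Option A) → Bool → Prop
  | fin (s : ℤ → Option A) (t : Bool) : Appears F s → WinA F pass s t
  | moveA (s s' : ℤ → Option A) : Move pass s s' → WinA F pass s' false → WinA F pass s true
  | moveB (s : ℤ → Option A) : (∀ s', Move pass s s' → WinA F pass s' true) → WinA F pass s false

def F : List (List (Fin 4)) :=
  [[0, 2], [1, 3],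
   [0, 0, 0, 2], [0, 0, 0, 3], [0, 0, 1, 2], [0, 0, 1, 3],
   [0, 1, 0, 2], [0, 1, 0, 3], [0, 1, 1, 2], [0, 1, 1, 3],
   [0, 2, 2, 2, 2], [0, 2, 2, 3, 2], [0, 2, 3, 2, 2], [0, 2, 3, 3, 2],
   [0, 3, 2, 2, 2], [0, 3, 2, 3, 2], [0, 3, 3, 2, 2], [0, 3, 3, 3, 2],
   [1, 2, 2, 2, 2], [1, 2, 2, 3, 2], [1, 2, 3, 2, 2], [1, 2, 3, 3, 2],
   [1, 3, 2, 2, 2], [1, 3, 2, 3, 2], [1, 3, 3, 2, 2], [1, 3, 3, 3, 2]]

theorem app2 (s : ℤ → Option (Fin 4)) (j : ℤ) (a b : Fin 4) (h : [a, b] ∈ F)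
    (h0 : s j = some a) (h1 : s (j + 1) = some b) : Appears F s := by
  refine ⟨_, h, j, fun k => ?_⟩
  fin_cases k <;> simp [h0, h1]

theorem app4 (s : ℤ → Option (Fin 4)) (j : ℤ) (a b c d : Fin 4) (h : [a, b, c, d] ∈ F)
    (h0 : s j = some a) (h1 : s (j + 1) = some b) (h2 : s (j + 2) = some c)
    (h3 : s (j + 3) = some d) : Appears F s := by
  refine ⟨_, h, j, fun k => ?_⟩
  fin_cases k <;> simp [h0, h1, h2, h3]

theorem app5 (s : ℤ → Option (Fin 4)) (j : ℤ) (a b c d e : Fin 4) (h : [a, b, c, d, e] ∈ F)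
    (h0 : s j = some a) (h1 : s (j + 1) = some b) (h2 : s (j + 2) = some c)
    (h3 : s (j + 3) = some d) (h4 : s (j + 4) = some e) : Appears F s := by
  refine ⟨_, h, j, fun k => ?_⟩
  fin_cases k <;> simp [h0, h1, h2, h3, h4]

theorem fin1 (s : ℤ → Option (Fin 4)) (i : ℤ) (a : Fin 4) (h : s i = none)
    (h' : Appears F (Function.update s i (some a))) : WinA F false s true :=
  WinA.moveA s _ (Or.inr ⟨i, a, h, rfl⟩) (WinA.fin _ _ h')

theorem right (s : ℤ → Option (Fin 4)) (i : ℤ) (a : Fin 4) (ha : a = 0 ∨ a = 1)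
    (h : s i = some a) (h' : s (i + 1) = none) : WinA F false s true := by
  refine fin1 s (i + 1) (a + 2) h' (app2 _ i a (a + 2) ?_ (by simp [h]) (by simp))
  rcases ha with rfl | rfl <;> decide

theorem left (s : ℤ → Option (Fin 4)) (i : ℤ) (a : Fin 4) (ha : a = 2 ∨ a = 3)
    (h : s (i + 1) = some a) (h' : s i = none) : WinA F false s true := by
  refine fin1 s i (a - 2) h' (app2 _ i (a - 2) a ?_ (by simp) (by simp [h]))
  rcases ha with rfl | rfl <;> decide

theorem four : ∀ a : Fin 4, (a = 0 ∨ a = 1) ∨ (a = 2 ∨ a = 3) := by decide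

theorem winA : WinA F false (fun _ => none) true := by
  refine WinA.moveA _ _ (Or.inr ⟨0, 0, rfl, rfl⟩) (WinA.moveB _ ?_)
  rintro s' (⟨h, -⟩ | ⟨i, a, hi, rfl⟩)
  · simp at h
  have hi0 : i ≠ 0 := by rintro rfl; simp at hi
  by_cases h1 : i = 1
  swap
  · exact right _ 0 0 (Or.inl rfl) (by simp [hi0.symm]) (by simp [Ne.symm h1])
  subst h1
  rcases four a with ha | rfl | rfl
  · exact right _ 1 a ha (by simp) (by simp)
  · exact WinA.fin _ _ (app2 _ 0 0 2 (by decide) (by simp) (by simp))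
  refine WinA.moveA _ _ (Or.inr ⟨2, 3, by simp, rfl⟩) (WinA.moveB _ ?_)
  rintro s' (⟨h, -⟩ | ⟨i, b, hi, rfl⟩)
  · simp at h
  have k0 : i ≠ 0 := by rintro rfl; simp at hi
  have k1 : i ≠ 1 := by rintro rfl; simp at hi
  have k2 : i ≠ 2 := by rintro rfl; simp at hi
  rcases four b with hb | hb
  · by_cases h : i = -1
    · subst h
      refine fin1 _ (-2) 0 (by simp) (app4 _ (-2) 0 b 0 3 ?_ (by simp)
        (by simp) (by simp)
        (by simp))
      rcases hb with rfl | rfl <;> decide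
    · refine right _ i b hb (by simp) ?_
      simp only [Function.update_apply]
      rw [if_neg (by omega), if_neg (by omega), if_neg (by omega), if_neg (by omega)]
  · by_cases h : i = 3
    · subst h
      refine fin1 _ 4 2 (by simp) (app5 _ 0 0 3 3 b 2 ?_
        (by simp) (by simp)
        (by simp) (by simp)
        (by simp))
      rcases hb with rfl | rfl <;> decide
    · refine left _ (i - 1) b hb (by simp) ?_
      simp only [Function.update_apply]
      rw [if_neg (by omega), if_neg (by omega), if_neg (by omega), if_neg (by omega)]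

def pr (a b : ℕ) : Prop := a ≤ 4 ∧ (a ≤ 1 → b ≠ 4 ∧ b ≠ a + 2) ∧ (a = 4 → b ≤ 1 ∨ b = 4)

instance (a b : ℕ) : Decidable (pr a b) := by unfold pr; infer_instance

def loc (a b c d e : ℕ) : Prop :=
  pr a b ∧
    ¬ ((a = 0 ∨ a = 4) ∧ b ≤ 1 ∧ c ≤ 1 ∧ (d = 2 ∨ d = 3)) ∧
    ¬ (a ≤ 1 ∧ (b = 2 ∨ b = 3) ∧ (c = 2 ∨ c = 3) ∧ (d = 2 ∨ d = 3) ∧ (e = 2 ∨ e = 4))

instance (a b c d e : ℕ) : Decidable (loc a b c d e) := by unfold loc; infer_instance

def Inv (c : ℤ → ℕ) : Prop := ∀ j, loc (c j) (c (j + 1)) (c (j + 2)) (c (j + 3)) (c (j + 4))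

theorem inv_of (c c' : ℤ → ℕ) (h : Inv c) (hf : ∀ k, k < -1 ∨ 1 < k → c' k = c k)
    (h1 : loc (c (-5)) (c (-4)) (c (-3)) (c (-2)) (c' (-1)))
    (h2 : loc (c (-4)) (c (-3)) (c (-2)) (c' (-1)) (c' 0))
    (h3 : loc (c (-3)) (c (-2)) (c' (-1)) (c' 0) (c' 1))
    (h4 : loc (c (-2)) (c' (-1)) (c' 0) (c' 1) (c 2))
    (h5 : loc (c' (-1)) (c' 0) (c' 1) (c 2) (c 3))
    (h6 : loc (c' 0) (c' 1) (c 2) (c 3) (c 4))
    (h7 : loc (c' 1) (c 2) (c 3) (c 4) (c 5)) : Inv c' := by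
  intro j
  by_cases hj : j < -5 ∨ 1 < j
  · rw [hf j (by omega), hf (j + 1) (by omega), hf (j + 2) (by omega), hf (j + 3) (by omega),
      hf (j + 4) (by omega)]
    exact h j
  · have e1 := hf (-5) (by omega)
    have e2 := hf (-4) (by omega)
    have e3 := hf (-3) (by omega)
    have e4 := hf (-2) (by omega)
    have e5 := hf 2 (by omega)
    have e6 := hf 3 (by omega)
    have e7 := hf 4 (by omega)
    have e8 := hf 5 (by omega)
    have hj1 : -5 ≤ j := by omega
    have hj2 : j ≤ 1 := by omega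
    interval_cases j <;> norm_num <;> simp only [e1, e2, e3, e4, e5, e6, e7, e8] <;> assumption

def U (x a1 b1 b2 : ℕ) : ℕ :=
  if x ≤ 1 ∧ b1 ≠ 4 ∧ a1 = 4 ∧ (b2 = 2 ∨ b2 = 3) then 1 else if 2 ≤ x ∧ a1 = 4 then 3 - x else a1

def W (x a2 a1 b1 : ℕ) : ℕ :=
  if x ≤ 1 ∧ b1 = 4 then 3 - x
  else if 2 ≤ x ∧ a1 ≠ 4 ∧ b1 = 4 ∧ (a2 = 2 ∨ a2 = 3) then 3 else b1

def all5 (f : ℕ → Bool) : Bool := f 0 && f 1 && f 2 && f 3 && f 4

theorem a5 {f : ℕ → Bool} (h : all5 f = true) (a : ℕ) (ha : a ≤ 4) : f a = true := by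
  simp only [all5, Bool.and_eq_true] at h
  interval_cases a
  exacts [h.1.1.1.1, h.1.1.1.2, h.1.1.2, h.1.2, h.2]

theorem im {p : Prop} [Decidable p] {b : Bool} (h : (!decide p || b) = true) (hp : p) :
    b = true := by simpa [hp] using h

theorem L1 : (all5 fun x => !decide (x ≤ 3) || all5 fun a1 => !decide (pr a1 4) ||
    all5 fun b1 => !decide (pr 4 b1) || all5 fun b2 => !decide (pr b1 b2) ||
    all5 fun a2 => !decide (loc a2 a1 4 b1 b2) || all5 fun a3 => !decide (loc a3 a2 a1 4 b1) ||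
    all5 fun a4 => !decide (loc a4 a3 a2 a1 4) || all5 fun a5 => !decide (loc a5 a4 a3 a2 a1) ||
    decide (loc a5 a4 a3 a2 (U x a1 b1 b2) ∧ loc a4 a3 a2 (U x a1 b1 b2) x ∧
      loc a3 a2 (U x a1 b1 b2) x (W x a2 a1 b1) ∧ loc a2 (U x a1 b1 b2) x (W x a2 a1 b1) b2)) =
    true := by decide +kernel

theorem L2 : (all5 fun x => !decide (x ≤ 3) || all5 fun a1 => !decide (pr a1 4) ||
    all5 fun a2 => !decide (pr a2 a1) || all5 fun b1 => !decide (pr 4 b1) ||
    all5 fun b2 => !decide (pr b1 b2) || all5 fun b3 => !decide (pr b2 b3 ∧ loc a1 4 b1 b2 b3) ||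
    all5 fun b4 => !decide (pr b3 b4 ∧ loc 4 b1 b2 b3 b4) || all5 fun b5 => !decide (loc b1 b2 b3 b4 b5) ||
    decide (loc (U x a1 b1 b2) x (W x a2 a1 b1) b2 b3 ∧ loc x (W x a2 a1 b1) b2 b3 b4 ∧
      loc (W x a2 a1 b1) b2 b3 b4 b5)) = true := by decide +kernel

theorem step0 (c : ℤ → ℕ) (h : Inv c) (h0 : c 0 = 4) (x : ℕ) (hx : x ≤ 3) :
    Inv (fun k => if k = 0 then x else c k) ∨
      ∃ j y, j ≠ 0 ∧ c j = 4 ∧ y ≤ 3 ∧
        Inv (fun k => if k = j then y else if k = 0 then x else c k) := by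
  have hb : ∀ j, c j ≤ 4 := fun j => (h j).1.1
  have w1 := h (-5)
  have w2 := h (-4)
  have w3 := h (-3)
  have w4 := h (-2)
  have w5 := h (-1)
  have w6 := h 0
  have w7 := h 1
  have w8 := h 2
  have w9 := h 3
  norm_num at w1 w2 w3 w4 w5 w6 w7 w8 w9
  rw [h0] at w2 w3 w4 w5 w6
  have r1 := of_decide_eq_true (im (a5 (im (a5 (im (a5 (im (a5 (im (a5 (im (a5 (im (a5 (im
    (a5 L1 x (by omega)) hx) _ (hb (-1))) w5.1) _ (hb 1)) w6.1) _ (hb 2)) w7.1) _ (hb (-2))) w4)
    _ (hb (-3))) w3) _ (hb (-4))) w2) _ (hb (-5))) w1)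
  have r2 := of_decide_eq_true (im (a5 (im (a5 (im (a5 (im (a5 (im (a5 (im (a5 (im (a5 (im
    (a5 L2 x (by omega)) hx) _ (hb (-1))) w5.1) _ (hb (-2))) w4.1) _ (hb 1)) w6.1) _ (hb 2)) w7.1)
    _ (hb 3)) ⟨w8.1, w5⟩) _ (hb 4)) ⟨w9.1, w6⟩) _ (hb 5)) w7)
  have tri : (U x (c (-1)) (c 1) (c 2) = c (-1) ∧ W x (c (-2)) (c (-1)) (c 1) = c 1) ∨
      (c (-1) = 4 ∧ U x (c (-1)) (c 1) (c 2) ≤ 3 ∧ W x (c (-2)) (c (-1)) (c 1) = c 1) ∨
      (c 1 = 4 ∧ W x (c (-2)) (c (-1)) (c 1) ≤ 3 ∧ U x (c (-1)) (c 1) (c 2) = c (-1)) := by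
    unfold U W
    split_ifs <;> omega
  generalize U x (c (-1)) (c 1) (c 2) = u at *
  generalize W x (c (-2)) (c (-1)) (c 1) = v at *
  obtain ⟨r11, r12, r13, r14⟩ := r1
  obtain ⟨r21, r22, r23⟩ := r2
  have key : ∀ (j : ℤ) (y : ℕ), (j = 1 ∨ j = -1) → ∀ k, k < -1 ∨ 1 < k →
      (fun k => if k = j then y else if k = 0 then x else c k) k = c k := by
    intro j y hj k hk
    simp only
    rw [if_neg (by omega), if_neg (by omega)]
  have key0 : ∀ k, k < -1 ∨ 1 < k → (fun k => if k = 0 then x else c k) k = c k := by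
    intro k hk
    simp only
    rw [if_neg (by omega)]
  rcases tri with ⟨rfl, rfl⟩ | ⟨h1, h2, rfl⟩ | ⟨h1, h2, rfl⟩
  · refine Or.inl (inv_of c _ h key0 ?_ ?_ ?_ ?_ ?_ ?_ ?_) <;> norm_num <;> assumption
  · refine Or.inr ⟨-1, u, by norm_num, h1, h2, inv_of c _ h (key (-1) _ (Or.inr rfl))
      ?_ ?_ ?_ ?_ ?_ ?_ ?_⟩ <;> norm_num <;> assumption
  · refine Or.inr ⟨1, v, by norm_num, h1, h2, inv_of c _ h (key 1 _ (Or.inl rfl))
      ?_ ?_ ?_ ?_ ?_ ?_ ?_⟩ <;> norm_num <;> assumption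

theorem inv_shift (c : ℤ → ℕ) (i : ℤ) (h : Inv c) : Inv (fun k => c (k + i)) := by
  intro j
  have := h (j + i)
  simp only [add_right_comm j i] at this
  exact this

def val (s : ℤ → Option (Fin 4)) (k : ℤ) : ℕ := (s k).elim 4 Fin.val

theorem val_none (s : ℤ → Option (Fin 4)) (k : ℤ) : val s k = 4 ↔ s k = none := by
  unfold val
  cases s k with
  | none => simp
  | some a => have := a.2; simp; omega

theorem val_upd (s : ℤ → Option (Fin 4)) (i : ℤ) (a : Fin 4) (k : ℤ) :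
    val (Function.update s i (some a)) k = if k = i then a.1 else val s k := by
  unfold val
  by_cases h : k = i
  · subst h; simp
  · simp [h]

theorem step (s : ℤ → Option (Fin 4)) (h : Inv (val s)) (s' : ℤ → Option (Fin 4))
    (hm : Move true s s') : ∃ s'', Move true s' s'' ∧ Inv (val s'') := by
  rcases hm with ⟨-, rfl⟩ | ⟨i, a, hi, rfl⟩
  · exact ⟨_, Or.inl ⟨rfl, rfl⟩, h⟩
  have ha := a.2
  rcases step0 _ (inv_shift _ i h) (by simpa using (val_none s i).2 hi) a.1 (by omega) with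
    h1 | ⟨j, y, hj, hc, hy, h1⟩
  · refine ⟨_, Or.inl ⟨rfl, rfl⟩, ?_⟩
    have h2 := inv_shift _ (-i) h1
    have e : val (Function.update s i (some a)) =
        fun k => if k + -i = 0 then a.1 else val s (k + -i + i) := by
      funext k
      rw [val_upd]
      simp [add_neg_eq_zero]
    rw [e]; exact h2
  · refine ⟨Function.update (Function.update s i (some a)) (j + i) (some ⟨y, by omega⟩),
      Or.inr ⟨j + i, _, ?_, rfl⟩, ?_⟩
    · rw [Function.update_of_ne (by omega)]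
      exact (val_none s _).1 hc
    · have h2 := inv_shift _ (-i) h1
      have e : val (Function.update (Function.update s i (some a)) (j + i) (some ⟨y, by omega⟩)) =
          fun k => if k + -i = j then y else if k + -i = 0 then a.1 else val s (k + -i + i) := by
        funext k
        rw [val_upd, val_upd]
        simp [add_neg_eq_iff_eq_add]
      rw [e]; exact h2

theorem no_app (s : ℤ → Option (Fin 4)) (h : Inv (val s)) : ¬ Appears F s := by
  rintro ⟨w, hw, j, hk⟩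
  have hj := h j
  unfold loc pr val at hj
  simp only [F, List.mem_cons, List.not_mem_nil, or_false] at hw
  rcases hw with rfl | rfl | rfl | rfl | rfl | rfl | rfl | rfl | rfl | rfl | rfl | rfl | rfl |
    rfl | rfl | rfl | rfl | rfl | rfl | rfl | rfl | rfl | rfl | rfl | rfl | rfl <;>
  · simp only [List.length_cons, List.length_nil, Fin.forall_fin_succ] at hk
    simp at hk
    simp [hk] at hj

theorem app_mono (s s' : ℤ → Option (Fin 4)) (hm : Move true s s') (h : Appears F s) :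
    Appears F s' := by
  rcases hm with ⟨-, rfl⟩ | ⟨i, a, hi, rfl⟩
  · exact h
  · obtain ⟨w, hw, j, hk⟩ := h
    refine ⟨w, hw, j, fun k => ?_⟩
    rw [Function.update_of_ne, hk k]
    intro e
    have := hk k
    rw [e, hi] at this
    simp at this

theorem notWin (s : ℤ → Option (Fin 4)) (t : Bool) (h : WinA F true s t) :
    ¬ (if t = true then Inv (val s) else ∃ s', Move true s s' ∧ Inv (val s')) := by
  induction h with
  | fin s t ha =>
    cases t
    · simp only [Bool.false_eq_true, if_false]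
      rintro ⟨s', hm, hi⟩
      exact no_app s' hi (app_mono s s' hm ha)
    · simp only [if_true]
      exact fun hi => no_app s hi ha
  | moveA s s' hm _ ih =>
    simp only [if_true, Bool.false_eq_true, if_false] at ih ⊢
    exact fun hi => ih (step s hi s' hm)
  | moveB s _ ih =>
    simp only [if_true, Bool.false_eq_true, if_false] at ih ⊢
    rintro ⟨s', hm, hi⟩
    exact ih s' hm hi

theorem result : ∃ F : List (List (Fin 4)),
    WinA F false (fun _ => none) true ∧ ¬ WinA F true (fun _ => none) true := by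
  refine ⟨F, winA, fun h => notWin _ _ h ?_⟩
  intro j
  simp [loc, pr, val]

end Pool.Agent.Results.MP_d015f1_co.Pass
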